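import Pool.Agent.W91.BH.Stm2

set_option autoImplicit false

open MeasureTheory
open scoped ENNReal ContDiff

namespace Pool.Agent.W26.BH

open Pool.Agent.W91.BH

noncomputable section

theorem meas_cube (n : ℕ) (Q : Idx n) : MeasurableSet (cube n Q) := by
  have h : cube n Q = ⋂ i : Fin n, {x : E n | ⌊(2 : ℝ) ^ Q.1 * x i⌋ = Q.2 i} := by
    ext x
    simp [cube]
  rw [h]
  refine MeasurableSet.iInter fun i => ?_
  have h1 : Measurable (fun x : E n => ⌊(2 : ℝ) ^ Q.1 * x i⌋) := by
    refine Int.measurable_floor.comp (Measurable.const_mul ?_ _)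
    exact (EuclideanSpace.proj (𝕜 := ℝ) i).continuous.measurable
  exact h1 (measurableSet_singleton (Q.2 i))

theorem vol_cube (n : ℕ) (Q : Idx n) :
    volume (cube n Q) = ENNReal.ofReal ((2 : ℝ) ^ (-((Q.1 : ℝ) * n))) := by
  have hk : (0 : ℝ) < (2 : ℝ) ^ Q.1 := by positivity
  have h : cube n Q = (WithLp.ofLp : E n → (Fin n → ℝ)) ⁻¹'
      (Set.pi Set.univ (fun i => Set.Ico ((Q.2 i : ℝ) / 2 ^ Q.1) (((Q.2 i : ℝ) + 1) / 2 ^ Q.1))) := by
    ext x
    simp only [cube, Set.mem_ofPred_eq, Set.mem_preimage, Set.mem_pi, Set.mem_univ, true_imp_iff,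
      Set.mem_Ico]
    refine forall_congr' fun i => ?_
    rw [Int.floor_eq_iff, div_le_iff₀ hk, lt_div_iff₀ hk]
    rw [mul_comm (x.ofLp i)]
  rw [h, (PiLp.volume_preserving_ofLp (Fin n)).measure_preimage
    (MeasurableSet.univ_pi fun i => measurableSet_Ico).nullMeasurableSet, Real.volume_pi_Ico]
  have h3 : ∀ i : Fin n, ((Q.2 i : ℝ) + 1) / 2 ^ Q.1 - (Q.2 i : ℝ) / 2 ^ Q.1 = ((2 : ℝ) ^ Q.1)⁻¹ := by
    intro i
    field_simp
    ring
  simp_rw [h3]
  rw [Finset.prod_const, Finset.card_univ, Fintype.card_fin, ← ENNReal.ofReal_pow (by positivity)]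
  congr 1
  rw [Real.rpow_neg (by norm_num), Real.rpow_mul (by norm_num), Real.rpow_natCast,
    Real.rpow_natCast, inv_pow]

lemma floor_div_eq (k : ℝ) (hk : 0 < k) (hn : ∃ m : ℕ, k = m) (s t : ℝ) (h : ⌊s⌋ = ⌊t⌋) :
    ⌊s / k⌋ = ⌊t / k⌋ := by
  obtain ⟨m, rfl⟩ := hn
  rw [Int.floor_div_natCast, Int.floor_div_natCast, h]

lemma cube_nested (n : ℕ) (P Q : Idx n) (x : E n) (hP : x ∈ cube n P) (hQ : x ∈ cube n Q)
    (h : P.1 ≤ Q.1) : cube n Q ⊆ cube n P := by
  intro y hy i
  have h1 : ⌊(2 : ℝ) ^ Q.1 * y i⌋ = ⌊(2 : ℝ) ^ Q.1 * x i⌋ := by rw [hy i, hQ i]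
  have hpow : (2 : ℝ) ^ Q.1 = (2 : ℝ) ^ P.1 * (2 : ℝ) ^ (Q.1 - P.1) := by
    rw [← pow_add]
    congr 1
    omega
  have h2 := floor_div_eq ((2 : ℝ) ^ (Q.1 - P.1)) (by positivity)
    ⟨2 ^ (Q.1 - P.1), by push_cast; rfl⟩ _ _ h1
  have e : ∀ t : ℝ, (2 : ℝ) ^ Q.1 * t / (2 : ℝ) ^ (Q.1 - P.1) = (2 : ℝ) ^ P.1 * t := by
    intro t
    rw [hpow]
    field_simp
  rw [e, e] at h2
  rw [h2]
  exact hP i

open Classical in
theorem union_bound (n : ℕ) (G : Finset (Idx n)) (v : Idx n → ℝ) (A : ℝ) (hA : 0 ≤ A)
    (hv : ∀ Q, 0 ≤ v Q)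
    (hG : ∀ P ∈ G, ∑ Q ∈ G.filter (fun Q => cube n Q ⊆ cube n P), v Q
      ≤ A * (2 : ℝ) ^ (-((P.1 : ℝ) * n))) :
    ∀ (m : ℕ) (H : Finset (Idx n)), H.card = m → H ⊆ G →
      ENNReal.ofReal (∑ Q ∈ H, v Q) ≤ ENNReal.ofReal A * volume (⋃ Q ∈ H, cube n Q) := by
  intro m
  induction m using Nat.strong_induction_on with
  | _ m ih =>
    intro H hm hH
    rcases H.eq_empty_or_nonempty with rfl | hne
    · simp
    · obtain ⟨P, hP, hmin⟩ := H.exists_min_image (fun Q => Q.1) hne
      set H1 := H.filter (fun Q => cube n Q ⊆ cube n P) with hH1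
      set H2 := H.filter (fun Q => ¬ cube n Q ⊆ cube n P) with hH2
      have hsum : ∑ Q ∈ H, v Q = ∑ Q ∈ H1, v Q + ∑ Q ∈ H2, v Q :=
        (Finset.sum_filter_add_sum_filter_not H _ _).symm
      have hPH2 : P ∉ H2 := by
        rw [hH2, Finset.mem_filter]
        exact fun h => h.2 (subset_refl _)
      have hsub2 : H2 ⊆ H := Finset.filter_subset _ _
      have hcard : H2.card < m := by
        rw [← hm]
        exact Finset.card_lt_card ⟨hsub2, fun h => hPH2 (h hP)⟩
      have i2 := ih H2.card hcard H2 rfl (hsub2.trans hH)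
      have i1 : ∑ Q ∈ H1, v Q ≤ A * (2 : ℝ) ^ (-((P.1 : ℝ) * n)) := by
        refine le_trans ?_ (hG P (hH hP))
        refine Finset.sum_le_sum_of_subset_of_nonneg ?_ (fun Q _ _ => hv Q)
        exact Finset.filter_subset_filter _ hH
      have hdisj : Disjoint (cube n P) (⋃ Q ∈ H2, cube n Q) := by
        rw [Set.disjoint_iUnion₂_right]
        intro Q hQ
        rw [Set.disjoint_left]
        intro x hx hxQ
        rw [hH2, Finset.mem_filter] at hQ
        exact hQ.2 (cube_nested n P Q x hx hxQ (hmin Q hQ.1))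
      have hsubset : cube n P ∪ (⋃ Q ∈ H2, cube n Q) ⊆ ⋃ Q ∈ H, cube n Q := by
        rw [Set.union_subset_iff]
        refine ⟨Set.subset_biUnion_of_mem (u := fun Q => cube n Q) hP, ?_⟩
        exact Set.biUnion_subset_biUnion_left (fun Q hQ => hsub2 hQ)
      have hm2 : MeasurableSet (⋃ Q ∈ H2, cube n Q) :=
        Finset.measurableSet_biUnion _ (fun Q _ => meas_cube n Q)
      calc ENNReal.ofReal (∑ Q ∈ H, v Q)
          = ENNReal.ofReal (∑ Q ∈ H1, v Q) + ENNReal.ofReal (∑ Q ∈ H2, v Q) := by
            rw [hsum, ENNReal.ofReal_add (Finset.sum_nonneg (fun Q _ => hv Q))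
              (Finset.sum_nonneg (fun Q _ => hv Q))]
        _ ≤ ENNReal.ofReal A * volume (cube n P) +
            ENNReal.ofReal A * volume (⋃ Q ∈ H2, cube n Q) := by
            refine add_le_add ?_ i2
            rw [vol_cube, ← ENNReal.ofReal_mul hA]
            exact ENNReal.ofReal_le_ofReal i1
        _ = ENNReal.ofReal A * volume (cube n P ∪ ⋃ Q ∈ H2, cube n Q) := by
            rw [measure_union hdisj hm2, mul_add]
        _ ≤ _ := by gcongr

open Classical in
theorem carl : S_CARL := by
  intro n G c v A hA hc0 hv hG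
  have key : ∀ (m : ℕ) (c : Idx n → ℝ), (∀ Q, 0 ≤ c Q) →
      (G.filter (fun Q => 0 < c Q)).card = m →
      ENNReal.ofReal (∑ Q ∈ G, c Q * v Q) ≤ ENNReal.ofReal A *
        ∫⁻ x, ⨆ Q ∈ G, (cube n Q).indicator (fun _ => ENNReal.ofReal (c Q)) x := by
    intro m
    induction m using Nat.strong_induction_on with
    | _ m ih =>
      intro c hc hm
      rcases (G.filter (fun Q => 0 < c Q)).eq_empty_or_nonempty with he | hne
      · have hz : ∑ Q ∈ G, c Q * v Q = 0 := by
          refine Finset.sum_eq_zero (fun Q hQ => ?_)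
          have h1 : ¬ 0 < c Q := fun h => by
            have : Q ∈ G.filter (fun Q => 0 < c Q) := Finset.mem_filter.2 ⟨hQ, h⟩
            rw [he] at this
            simp at this
          rw [le_antisymm (not_lt.1 h1) (hc Q), zero_mul]
        rw [hz]
        simp
      · obtain ⟨P, hP, hmin⟩ := (G.filter (fun Q => 0 < c Q)).exists_min_image c hne
        set H := G.filter (fun Q => 0 < c Q) with hH
        set t := c P with ht
        have htpos : 0 < t := (Finset.mem_filter.1 hP).2
        set c' : Idx n → ℝ := fun Q => max (c Q - t) 0 with hc'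
        have hc'0 : ∀ Q, 0 ≤ c' Q := fun Q => le_max_right _ _
        have hcin : ∀ Q ∈ H, c Q = c' Q + t := by
          intro Q hQ
          have := hmin Q hQ
          simp only [hc']
          rw [max_eq_left (by linarith)]
          ring
        have hcout : ∀ Q ∈ G, Q ∉ H → c Q = 0 ∧ c' Q = 0 := by
          intro Q hQ hQH
          have h1 : ¬ 0 < c Q := fun h => hQH (Finset.mem_filter.2 ⟨hQ, h⟩)
          have h2 : c Q = 0 := le_antisymm (not_lt.1 h1) (hc Q)
          refine ⟨h2, ?_⟩
          simp only [hc']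
          rw [h2, max_eq_right (by linarith)]
        have hsub : G.filter (fun Q => 0 < c' Q) ⊂ H := by
          refine ⟨fun Q hQ => ?_, fun h => ?_⟩
          · rw [Finset.mem_filter] at hQ
            by_contra hQH
            have := (hcout Q hQ.1 hQH).2
            linarith [hQ.2]
          · have h1 := (Finset.mem_filter.1 (h hP)).2
            have h2 : c' P = 0 := by
              simp only [hc']
              rw [← ht]
              simp
            linarith
        have hlt : (G.filter (fun Q => 0 < c' Q)).card < m := by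
          rw [← hm]
          exact Finset.card_lt_card hsub
        have i1 := ih _ hlt c' hc'0 rfl
        have i2 := union_bound n G v A hA hv hG H.card H rfl (Finset.filter_subset _ _)
        have hsum : ∑ Q ∈ G, c Q * v Q = ∑ Q ∈ G, c' Q * v Q + t * ∑ Q ∈ H, v Q := by
          rw [hH, Finset.mul_sum, Finset.sum_filter, ← Finset.sum_add_distrib]
          refine Finset.sum_congr rfl (fun Q hQ => ?_)
          by_cases h : 0 < c Q
          · rw [if_pos h, hcin Q (Finset.mem_filter.2 ⟨hQ, h⟩)]
            ring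
          · have := hcout Q hQ (fun h' => h (Finset.mem_filter.1 h').2)
            rw [if_neg h, this.1, this.2]
            ring
        set U := ⋃ Q ∈ H, cube n Q with hU
        have hUm : MeasurableSet U := Finset.measurableSet_biUnion _ (fun Q _ => meas_cube n Q)
        have hpt : ∀ x, (⨆ Q ∈ G, (cube n Q).indicator (fun _ => ENNReal.ofReal (c' Q)) x) +
            U.indicator (fun _ => ENNReal.ofReal t) x ≤
            ⨆ Q ∈ G, (cube n Q).indicator (fun _ => ENNReal.ofReal (c Q)) x := by
          intro x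
          by_cases hx : x ∈ U
          · rw [Set.indicator_of_mem hx]
            obtain ⟨Q0, hQ0, hxQ0⟩ := Set.mem_iUnion₂.1 hx
            have hQ0G : Q0 ∈ G := (Finset.mem_filter.1 hQ0).1
            have hsup0 : ENNReal.ofReal t ≤
                ⨆ Q ∈ G, (cube n Q).indicator (fun _ => ENNReal.ofReal (c Q)) x := by
              refine le_trans ?_ (le_iSup₂ (f := fun Q (_ : Q ∈ G) =>
                (cube n Q).indicator (fun _ => ENNReal.ofReal (c Q)) x) Q0 hQ0G)
              rw [Set.indicator_of_mem hxQ0]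
              exact ENNReal.ofReal_le_ofReal (hmin Q0 hQ0)
            refine add_le_of_le_tsub_right_of_le hsup0 ?_
            refine iSup₂_le (fun Q hQ => ?_)
            refine ENNReal.le_sub_of_add_le_right ENNReal.ofReal_ne_top ?_
            by_cases hxQ : x ∈ cube n Q
            · by_cases hQH : Q ∈ H
              · refine le_trans ?_ (le_iSup₂ (f := fun Q (_ : Q ∈ G) =>
                  (cube n Q).indicator (fun _ => ENNReal.ofReal (c Q)) x) Q hQ)
                simp only [Set.indicator_of_mem hxQ]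
                rw [← ENNReal.ofReal_add (hc'0 Q) htpos.le, hcin Q hQH]
              · rw [Set.indicator_of_mem hxQ, (hcout Q hQ hQH).2]
                simpa using hsup0
            · rw [Set.indicator_of_notMem hxQ, zero_add]
              exact hsup0
          · rw [Set.indicator_of_notMem hx, add_zero]
            refine iSup₂_le (fun Q hQ => ?_)
            by_cases hxQ : x ∈ cube n Q
            · have hQH : Q ∉ H := fun h => hx (Set.mem_iUnion₂.2 ⟨Q, h, hxQ⟩)
              rw [Set.indicator_of_mem hxQ, (hcout Q hQ hQH).2]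
              simp
            · rw [Set.indicator_of_notMem hxQ]
              exact bot_le
        calc ENNReal.ofReal (∑ Q ∈ G, c Q * v Q)
            = ENNReal.ofReal (∑ Q ∈ G, c' Q * v Q) +
              ENNReal.ofReal t * ENNReal.ofReal (∑ Q ∈ H, v Q) := by
              rw [hsum, ENNReal.ofReal_add (Finset.sum_nonneg
                (fun Q _ => mul_nonneg (hc'0 Q) (hv Q)))
                (mul_nonneg htpos.le (Finset.sum_nonneg (fun Q _ => hv Q))),
                ENNReal.ofReal_mul htpos.le]
          _ ≤ ENNReal.ofReal A * (∫⁻ x, ⨆ Q ∈ G,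
                (cube n Q).indicator (fun _ => ENNReal.ofReal (c' Q)) x) +
              ENNReal.ofReal t * (ENNReal.ofReal A * volume U) := by gcongr
          _ = ENNReal.ofReal A * ((∫⁻ x, ⨆ Q ∈ G,
                (cube n Q).indicator (fun _ => ENNReal.ofReal (c' Q)) x) +
              ∫⁻ x, U.indicator (fun _ => ENNReal.ofReal t) x) := by
              rw [lintegral_indicator_const hUm]
              ring
          _ = ENNReal.ofReal A * ∫⁻ x, ((⨆ Q ∈ G,
                (cube n Q).indicator (fun _ => ENNReal.ofReal (c' Q)) x) +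
              U.indicator (fun _ => ENNReal.ofReal t) x) := by
              rw [lintegral_add_right _ (measurable_const.indicator hUm)]
          _ ≤ _ := by
              gcongr with x
              exact hpt x
  exact key _ c hc0 rfl

end

end Pool.Agent.W26.BH
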